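import Pool.Agent.Lib.MP_07117b_nt_h34.Act
import Pool.Agent.Lib.MP_07117b_nt_h64.DegDefs

/-!
The rational map of degree 52: coprimality, degrees, the preimages of `1` (row D1).
-/

set_option autoImplicit false
set_option linter.unusedSectionVars false

namespace Pool.Agent.Arb

open Cst Polynomial

section poly

variable {K : Type*} [Field K] [CharZero K] (c0 : Cst K)

namespace D1

lemma ω_ne (c : Cst K) : c.ω ≠ 0 := by
  intro h
  have := c.hω
  rw [h] at this
  norm_num at this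

lemma a_ne (c : Cst K) : c.a ≠ 0 := by
  intro h
  have := c.ha
  rw [h] at this
  norm_num at this

lemma coprime_AB : IsCoprime (pA K) (pB K) := by
  refine ⟨C (-(4 / 3)), C (1 / 3) * (C 2 * Polynomial.X + C 3), ?_⟩
  unfold pA pB
  have h4 : (C (-(4 / 3) : K) : K[X]) = C (1 / 3) * C (-4) := by
    rw [← C_mul]; congr 1; norm_num
  have h2 : (C (2 : K) : K[X]) = 2 := by rw [← map_ofNat C 2]
  have h3 : (C (3 : K) : K[X]) = 3 := by rw [← map_ofNat C 3]
  have h44 : (C (-4 : K) : K[X]) = -4 := by rw [map_neg, ← map_ofNat C 4]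
  have h13 : (C (1 / 3 : K) : K[X]) * 3 = 1 := by
    rw [← h3, ← C_mul]; norm_num
  rw [h4, h44, h2, h3]
  linear_combination h13

lemma coprime_A13 : IsCoprime (pA K ^ 13) (pB K ^ 13) := (coprime_AB (K := K)).pow

end D1

/-- row D1 -/
theorem coprime_pq : IsCoprime c0.pp c0.qq := by
  obtain ⟨u, v, huv⟩ := D1.coprime_A13 (K := K)
  have hω := D1.ω_ne c0
  have hCω : C (c0.ω)⁻¹ * C c0.ω = (1 : K[X]) := by
    rw [← C_mul, inv_mul_cancel₀ hω, C_1]
  have ha : (C c0.a : K[X]) ^ 2 = -2 := by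
    rw [← C_pow, c0.ha, map_neg]; rfl
  have h3 : (C (1 / 3 : K) : K[X]) * 3 = 1 := by
    have h3 : (C (3 : K) : K[X]) = 3 := by rw [← map_ofNat C 3]
    rw [← h3, ← C_mul]; norm_num
  set A : K[X] := pA K ^ 13 with hA
  set B : K[X] := pB K ^ 13 with hB
  -- the pairs
  have hAB : IsCoprime A B := ⟨u, v, huv⟩
  have hBA' : IsCoprime B (A + C (c0.a * c0.ω) * B) := by
    have h := (IsCoprime.add_mul_left_right (hAB.symm) (C (c0.a * c0.ω)))
    rwa [mul_comm B] at h
  have hA'A : IsCoprime (C c0.a * A + C c0.ω * B) A := by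
    have h1 : IsCoprime (C c0.ω * B) A := by
      refine IsCoprime.mul_left ?_ hAB.symm
      exact ⟨C (c0.ω)⁻¹, 0, by rw [hCω, zero_mul, add_zero]⟩
    have h := IsCoprime.add_mul_left_left h1 (C c0.a)
    rwa [add_comm, mul_comm A] at h
  have hA'A' : IsCoprime (C c0.a * A + C c0.ω * B) (A + C (c0.a * c0.ω) * B) := by
    rw [C_mul]
    refine ⟨C (c0.ω)⁻¹ * C (1 / 3) * v - u * (C c0.a * C (1/3)),
      - C (c0.ω)⁻¹ * C (1 / 3) * C c0.a * v + u * (1 + C (1/3) * C c0.a ^ 2), ?_⟩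
    have key : (C (c0.ω)⁻¹ * C (1 / 3) * v - u * (C c0.a * C (1/3))) *
        (C c0.a * A + C c0.ω * B) +
      (- C (c0.ω)⁻¹ * C (1 / 3) * C c0.a * v + u * (1 + C (1/3) * C c0.a ^ 2)) *
        (A + C c0.a * C c0.ω * B) - 1 = 0 := by
      linear_combination (-C (1 / 3) * C (c0.ω)⁻¹ * C c0.ω * v * B
        + u * C c0.a * C c0.ω * B * C (1/3)) * ha + v * B * C (1/3) * 3 * hCω + v * B * h3 +
        (u * C c0.a * C c0.ω * B) * (- h3) + huv
    linear_combination key
  unfold pp qq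
  rw [← hA, ← hB]
  have hneg : IsCoprime (-C c0.ω) (A * (A + C (c0.a * c0.ω) * B)) := by
    exact ⟨-C (c0.ω)⁻¹, 0, by rw [neg_mul_neg, hCω, zero_mul, add_zero]⟩
  refine IsCoprime.mul_left (IsCoprime.mul_left hneg ?_) ?_
  · exact IsCoprime.mul_right hAB.symm hBA'
  · exact IsCoprime.mul_right hA'A hA'A'

namespace D1

lemma monic_A : (pA K).Monic := by
  unfold pA
  exact monic_X.mul (monic_X_add_C 2)

lemma natDegree_A : (pA K).natDegree = 2 := by
  unfold pA
  rw [Monic.natDegree_mul monic_X (monic_X_add_C 2), natDegree_X, natDegree_X_add_C]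

lemma natDegree_B : (pB K).natDegree ≤ 1 := by
  unfold pB
  compute_degree

lemma monic_A' : (pA K ^ 13 + C (c0.a * c0.ω) * pB K ^ 13).Monic := by
  refine (monic_A.pow 13).add_of_left ?_
  have h1 : (pA K ^ 13).degree = 26 := by
    rw [degree_eq_natDegree (monic_A.pow 13).ne_zero, natDegree_pow, natDegree_A]
    norm_num
  rw [h1]
  refine lt_of_le_of_lt (degree_le_of_natDegree_le (n := 13) ?_) (by norm_num)
  refine (natDegree_C_mul_le _ _).trans ?_
  refine natDegree_pow_le.trans ?_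
  have := natDegree_B (K := K)
  omega

lemma natDegree_A' : (pA K ^ 13 + C (c0.a * c0.ω) * pB K ^ 13).natDegree = 26 := by
  rw [natDegree_add_eq_left_of_natDegree_lt, natDegree_pow, natDegree_A]
  rw [natDegree_pow, natDegree_A]
  refine lt_of_le_of_lt (natDegree_C_mul_le _ _) ?_
  refine lt_of_le_of_lt natDegree_pow_le ?_
  have := natDegree_B (K := K)
  omega

lemma natDegree_qq : c0.qq.natDegree = 52 := by
  unfold qq
  rw [Monic.natDegree_mul (monic_A.pow 13) (monic_A' c0), natDegree_A', natDegree_pow,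
    natDegree_A]

lemma monic_qq : c0.qq.Monic := (monic_A.pow 13).mul (monic_A' c0)

lemma natDegree_pp : c0.pp.natDegree ≤ 39 := by
  unfold pp
  have h1 : (C c0.a * pA K ^ 13 + C c0.ω * pB K ^ 13).natDegree ≤ 26 := by
    refine (natDegree_add_le _ _).trans (max_le ?_ ?_)
    · refine (natDegree_C_mul_le _ _).trans ?_
      rw [natDegree_pow, natDegree_A]
    · refine (natDegree_C_mul_le _ _).trans ?_
      refine natDegree_pow_le.trans ?_
      have := natDegree_B (K := K)
      omega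
  have h2 : (-C c0.ω * pB K ^ 13).natDegree ≤ 13 := by
    rw [← C_neg]
    refine (natDegree_C_mul_le _ _).trans ?_
    refine natDegree_pow_le.trans ?_
    have := natDegree_B (K := K)
    omega
  exact natDegree_mul_le.trans (by omega)

end D1

/-- row D1 -/
theorem natDegree_pq : max c0.pp.natDegree c0.qq.natDegree = 52 := by
  rw [D1.natDegree_qq]
  exact max_eq_right ((D1.natDegree_pp c0).trans (by norm_num))

end poly

namespace D1

section field

variable {F : Type*} [Field F] [CharZero F] (c : Cst F)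

lemma ω3 : c.ω ^ 3 = 1 := by
  linear_combination (c.ω - 1) * c.hω

lemma ω13 : c.ω ^ 13 = c.ω := by
  have h := ω3 c
  calc c.ω ^ 13 = (c.ω ^ 3) ^ 4 * c.ω := by ring
    _ = c.ω := by rw [h]; ring

/-- The factorisation of the denominator of `P`. -/
lemma den_fac (w : F) : 1 - 2 * c.a * w ^ 3 = (c.a * w + 1) * (1 - c.a * w - 2 * w ^ 2) := by
  linear_combination (w ^ 2) * c.ha

lemma num_fac (w : F) : w ^ 3 - 2 * c.a = (w + c.a) * (w ^ 2 - c.a * w - 2) := by
  linear_combination (w) * c.ha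

lemma den_X {w : F} (h : c.a * w + 1 ≠ 0) :
    1 - 2 * c.a * w ^ 3 = (c.a * w + 1) ^ 2 * (2 * c.X w + 1) := by
  rw [den_fac]
  unfold Cst.X
  field_simp
  ring

lemma X_eq' {u t : F} (hu : c.a * u + 1 ≠ 0) (ht : c.a * t + 1 ≠ 0) (h : c.X t = c.X u) :
    t = u ∨ t = c.s0 u := by
  unfold Cst.X at h
  rw [div_eq_div_iff ht hu] at h
  have h1 : (t - u) * (c.a * t * u + t + u + c.a) = 0 := by
    linear_combination -h
  rcases mul_eq_zero.1 h1 with h2 | h2
  · exact Or.inl (sub_eq_zero.1 h2)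
  · right
    unfold s0
    rw [eq_div_iff hu]
    linear_combination h2

lemma exists_X [IsAlgClosed F] (x : F) : ∃ w, c.a * w + 1 ≠ 0 ∧ c.X w = x := by
  obtain ⟨w, hw⟩ := IsAlgClosed.exists_eq_mul_self ((c.a + c.a * x) ^ 2 - 4 * x)
  have h2 : (2 : F) ≠ 0 := two_ne_zero
  let w0 : F := (w - (c.a + c.a * x)) / 2
  have h0 : w0 ^ 2 + (c.a + c.a * x) * w0 + x = 0 := by
    change ((w - (c.a + c.a * x)) / 2) ^ 2 + (c.a + c.a * x) * ((w - (c.a + c.a * x)) / 2) + x = 0
    field_simp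
    linear_combination -hw
  have h1 : c.a * w0 + 1 ≠ 0 := by
    intro h
    have h3 : w0 * (w0 + c.a) = 0 := by linear_combination h0 - x * h
    rcases mul_eq_zero.1 h3 with h4 | h4
    · rw [h4] at h
      norm_num at h
    · have h5 : w0 = - c.a := eq_neg_of_add_eq_zero_left h4
      rw [h5] at h
      have h6 : (3 : F) = 0 := by linear_combination h + c.ha
      norm_num at h6
  refine ⟨w0, h1, ?_⟩
  unfold Cst.X
  rw [div_eq_iff h1]
  linear_combination -h0

/-- `κ` -/
def κ (w : F) : F := c.ω / w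

lemma κκ (w : F) : κ c (κ c w) = w := by
  unfold κ
  have := ω_ne c
  by_cases hw : w = 0
  · simp [hw]
  · field_simp

lemma kap_succ (n : ℕ) (w : F) : c.kap (n + 1) w = κ c (c.kap n w) := by
  unfold kap
  by_cases h : Even n
  · have h' : ¬ Even (n + 1) := by rw [Nat.even_add_one]; exact not_not.2 h
    rw [if_neg h', if_pos h]
    rfl
  · have h' : Even (n + 1) := by rw [Nat.even_add_one]; exact h
    rw [if_pos h', if_neg h]
    exact (κκ c w).symm

lemma kap_κ (n : ℕ) (w : F) : c.kap n (κ c w) = κ c (c.kap n w) := by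
  unfold kap
  split_ifs <;> rfl

lemma kap_kap (n : ℕ) (w : F) : c.kap n (c.kap n w) = w := by
  unfold kap
  split_ifs
  · rfl
  · exact κκ c w

lemma h_κ (w : F) : c.P (κ c w) ^ 13 = κ c (c.P w ^ 13) := by
  by_cases hw : w = 0
  · have h0 : κ c (0 : F) = 0 := by simp [κ]
    have h1 : c.P 0 = 0 := by simp [P]
    rw [hw, h0, h1]
    simp [κ]
  · have h1 : κ c w = c.ω * w⁻¹ := by unfold κ; rw [div_eq_mul_inv]
    rw [h1, P_ω, P_inv hw, mul_pow, ω13]
    unfold κ
    rw [div_eq_mul_inv, inv_pow]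

lemma h_kap (n : ℕ) (w : F) : c.P (c.kap n w) ^ 13 = c.kap n (c.P w ^ 13) := by
  unfold kap
  split_ifs
  · rfl
  · exact h_κ c w

/-! ### Nodes -/

lemma SS_ne {n : ℕ} {s : F} (hs : s ∈ c.SS n) : s ≠ 0 := by
  rcases hs with h | h
  · exact (MS_ne h).1
  · intro h0
    rw [h0, inv_zero] at h
    exact (MS_ne h).1 rfl

lemma SS_succ_of {n : ℕ} {v : F} (h : c.P v ^ 13 ∈ c.SS n) : v ∈ c.SS (n + 1) := by
  have h0 : c.P v ^ 13 ≠ 0 := SS_ne c h
  have hP : c.P v ≠ 0 := fun h1 => h0 (by rw [h1]; norm_num)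
  have hv : v ≠ 0 := by
    rintro rfl
    exact hP (by simp [P])
  rcases h with h | h
  · left
    refine ⟨?_, h⟩
    intro h1
    apply hP
    unfold P
    rw [h1, div_zero]
  · right
    have h2 : c.P v⁻¹ ^ 13 = (c.P v ^ 13)⁻¹ := by rw [P_inv hv, inv_pow]
    refine ⟨?_, ?_⟩
    · intro h1
      apply hP
      have h3 : c.P v⁻¹ = 0 := by
        unfold P
        rw [h1, div_zero]
      rw [P_inv hv] at h3
      exact inv_eq_zero.1 h3
    · rw [h2]
      exact h

lemma SS_of_succ {n : ℕ} {v : F} (h : v ∈ c.SS (n + 1)) : c.P v ^ 13 ∈ c.SS n := by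
  have hv := SS_ne c h
  rcases h with h | h
  · exact Or.inl h.2
  · right
    have h2 : c.P v⁻¹ ^ 13 = (c.P v ^ 13)⁻¹ := by rw [P_inv hv, inv_pow]
    rw [← h2]
    exact h.2

lemma r_sq : (2 * c.ω + 1) ^ 2 = -3 := by
  linear_combination 4 * c.hω

lemma m_eq : c.m ^ 2 + 2 * c.a * c.m + 1 = 0 := by
  unfold m
  linear_combination 4 * c.hω - c.ha

lemma m_ne : c.m ≠ 0 := by
  intro h
  have := m_eq c
  rw [h] at this
  norm_num at this

lemma am_ne : c.a * c.m + 1 ≠ 0 := by
  intro h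
  unfold m at h
  have h1 : c.a * (2 * c.ω + 1) = -3 := by linear_combination h + c.ha
  have h2 : (c.a * (2 * c.ω + 1)) ^ 2 = 6 := by
    rw [mul_pow, c.ha, r_sq]; norm_num
  rw [h1] at h2
  norm_num at h2

lemma m_a_ne : c.m + c.a ≠ 0 := by
  intro h
  have h1 : 2 * c.ω + 1 = 0 := by
    unfold m at h
    linear_combination h
  have := r_sq c
  rw [h1] at this
  norm_num at this

/-- the points used below are in the domain of `X` and `X ≠ 0` there -/
def Ax (u : F) : Prop := u ≠ 0 ∧ c.a * u + 1 ≠ 0 ∧ u + c.a ≠ 0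

lemma ax_of_P {w : F} (h : c.P w ≠ 0) : Ax c w := by
  have h1 : 1 - 2 * c.a * w ^ 3 ≠ 0 := by
    intro h1
    apply h
    unfold P
    rw [h1, div_zero]
  refine ⟨?_, ?_, ?_⟩
  · rintro rfl
    exact h (by simp [P])
  · rw [den_fac] at h1
    exact left_ne_zero_of_mul h1
  · intro h2
    apply h
    unfold P
    rw [num_fac, h2]
    simp

lemma ax_inv {w : F} (h : Ax c w) : Ax c w⁻¹ := by
  obtain ⟨h0, h1, h2⟩ := h
  refine ⟨inv_ne_zero h0, ?_, ?_⟩
  · intro h3
    apply h2
    field_simp at h3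
    linear_combination h3
  · intro h3
    apply h1
    field_simp at h3
    linear_combination h3

lemma ax_m : Ax c c.m := ⟨m_ne c, am_ne c, m_a_ne c⟩

lemma ax_kap {n : ℕ} {s : F} (hs : s ∈ c.SS n) : Ax c (c.kap n s) := by
  cases n with
  | zero =>
    have h0 : c.kap 0 s = s := by unfold kap; rw [if_pos Even.zero]
    rw [h0]
    rcases hs with h | h
    · have : s = c.m := h
      rw [this]
      exact ax_m c
    · have h1 : s⁻¹ = c.m := h
      have h2 : s = c.m⁻¹ := by rw [← h1, inv_inv]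
      rw [h2]
      exact ax_inv c (ax_m c)
  | succ n =>
    apply ax_of_P
    intro h
    have h1 := h_kap c (n + 1) s
    rw [h] at h1
    have h2 := SS_ne c (SS_of_succ c hs)
    have h3 : c.kap (n + 1) (c.P s ^ 13) ≠ 0 := by
      unfold kap
      split_ifs
      · exact h2
      · exact div_ne_zero (ω_ne c) h2
    exact h3 (by rw [← h1]; norm_num)

/-- the deck transformation on the nodes of level `n` -/
def dv (n : ℕ) : V4 := if Even n then (1, 0) else (0, 1)

lemma S_10 (s : F) : c.S (1, 0) s = c.s0 s := by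
  unfold S
  rw [if_neg (by decide), if_pos rfl]

lemma S_01 (s : F) : c.S (0, 1) s = c.ω * c.s0 (c.ω ^ 2 * s) := by
  unfold S
  rw [if_neg (by decide), if_neg (by decide), if_pos rfl]

lemma S_11 (s : F) : c.S (1, 1) s = c.ω ^ 2 * c.s0 (c.ω * s) := by
  unfold S
  rw [if_neg (by decide), if_neg (by decide), if_neg (by decide)]

lemma s0_κ {s : F} (hs : s ≠ 0) : c.s0 (κ c s) = κ c (c.S (0, 1) s) := by
  have hω := ω_ne c
  have h3 := ω3 c
  have e1 : c.ω / s + c.a = (c.ω + c.a * s) / s := by field_simp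
  have e2 : c.a * (c.ω / s) + 1 = (c.a * c.ω + s) / s := by field_simp
  have e3 : c.ω ^ 2 * s + c.a = (c.a * c.ω + s) * c.ω ^ 2 := by
    linear_combination (-c.a) * h3
  have e4 : c.a * (c.ω ^ 2 * s) + 1 = (c.ω + c.a * s) * c.ω ^ 2 := by
    linear_combination (-1) * h3
  rw [S_01]
  unfold κ s0
  rw [e1, e2, e3, e4, neg_div, neg_div, div_div_div_cancel_right₀ hs,
    mul_div_mul_right _ _ (pow_ne_zero 2 hω), mul_neg, div_neg, neg_inj,
    div_mul_cancel_left₀ hω, inv_div]

lemma inv_s0 {s : F} (hs : s ≠ 0) : (c.s0 s)⁻¹ = c.s0 s⁻¹ := by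
  unfold s0
  by_cases h1 : s + c.a = 0
  · have h2 : c.a * s⁻¹ + 1 = 0 := by
      field_simp
      linear_combination h1
    rw [h1, h2]
    simp
  · have h2 : c.a * s⁻¹ + 1 ≠ 0 := by
      intro h
      apply h1
      field_simp at h
      linear_combination h
    have h2' : c.a + s ≠ 0 := fun h => h1 (by rw [add_comm]; exact h)
    by_cases h4 : c.a * s + 1 = 0
    · have h5 : s⁻¹ + c.a = 0 := by
        field_simp
        linear_combination h4
      rw [h4, h5]
      simp
    · field_simp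
      ring

lemma inv_S01 {s : F} (hs : s ≠ 0) : (c.S (0, 1) s)⁻¹ = c.S (1, 1) s⁻¹ := by
  have hω := ω_ne c
  have h3 := ω3 c
  rw [S_01, S_11, mul_inv, inv_s0 c (mul_ne_zero (pow_ne_zero 2 hω) hs)]
  have h1 : c.ω⁻¹ = c.ω ^ 2 := by
    apply inv_eq_of_mul_eq_one_right
    linear_combination h3
  have h2 : (c.ω ^ 2 * s)⁻¹ = c.ω * s⁻¹ := by
    rw [mul_inv, ← inv_pow, h1, ← pow_mul]
    have : c.ω ^ (2 * 2) = c.ω := by linear_combination c.ω * h3
    rw [this]
  rw [h1, h2]

lemma SS_stable {n : ℕ} {s : F} (hs : s ∈ c.SS n) : c.S (dv n) s ∈ c.SS n := by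
  have hs0 := SS_ne c hs
  cases n with
  | zero =>
    have hd : dv 0 = (1, 0) := if_pos Even.zero
    rw [hd, S_10]
    have h0 : c.s0 c.m = c.m⁻¹ := by
      have h1 := am_ne c
      have h2 := m_ne c
      unfold Cst.s0
      rw [div_eq_iff h1]
      field_simp
      linear_combination (-1) * m_eq c
    rcases hs with h | h
    · have h1 : s = c.m := h
      right
      rw [h1, h0, inv_inv]
      exact rfl
    · have h1 : s⁻¹ = c.m := h
      left
      have h2 : s = c.m⁻¹ := by rw [← h1, inv_inv]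
      rw [h2, ← inv_s0 c (m_ne c), h0, inv_inv]
      exact rfl
  | succ n =>
    rcases hs with h | h
    · exact Or.inl (S_MS c h _)
    · right
      unfold dv
      split_ifs
      · rw [S_10, inv_s0 c hs0, ← S_10]
        exact S_MS c h _
      · rw [inv_S01 c hs0]
        exact S_MS c h _

lemma s0_kap {n : ℕ} {s : F} (hs : s ≠ 0) : c.s0 (c.kap n s) = c.kap n (c.S (dv n) s) := by
  unfold kap dv
  split_ifs
  · rw [S_10]
  · exact s0_κ c hs

lemma X_kap {n : ℕ} {s t : F} (hs : s ∈ c.SS n) (ht : c.a * t + 1 ≠ 0)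
    (h : c.X t = c.X (c.kap n s)) : ∃ s' ∈ c.SS n, t = c.kap n s' := by
  rcases X_eq' c (ax_kap c hs).2.1 ht h with h1 | h1
  · exact ⟨s, hs, h1⟩
  · refine ⟨_, SS_stable c hs, ?_⟩
    rw [h1]
    exact s0_kap c (SS_ne c hs)

lemma X_ne {n : ℕ} {s : F} (hs : s ∈ c.SS n) : c.X (c.kap n s) ≠ 0 := by
  obtain ⟨h0, h1, h2⟩ := ax_kap c hs
  unfold Cst.X
  exact div_ne_zero (neg_ne_zero.2 (mul_ne_zero h0 h2)) h1

lemma zero_notMem (n : ℕ) : (0 : F) ∉ c.NS n := by
  rintro ⟨s, hs, h⟩
  exact X_ne c hs h.symm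

lemma eval_A (x : F) : (pA F).eval x = x * (x + 2) := by
  simp [pA]

lemma eval_B (x : F) : (pB F).eval x = 2 * x + 1 := by
  simp [pB]

lemma eval_pp (x : F) : c.pp.eval x =
    -(c.ω * (2 * x + 1) ^ 13 * (c.a * (x * (x + 2)) ^ 13 + c.ω * (2 * x + 1) ^ 13)) := by
  unfold pp
  simp only [eval_mul, eval_add, eval_neg, eval_pow, eval_C, eval_A, eval_B]
  rw [neg_mul, neg_mul]

lemma eval_qq (x : F) : c.qq.eval x =
    (x * (x + 2)) ^ 13 * ((x * (x + 2)) ^ 13 + c.a * c.ω * (2 * x + 1) ^ 13) := by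
  unfold qq
  simp only [eval_mul, eval_add, eval_pow, eval_C, eval_A, eval_B]

/-- `f x = X (κ (h))`. -/
lemma f_eq {A B : F} (hA : A ≠ 0) (ht : c.a * (c.ω * B / A) + 1 ≠ 0) :
    A * (A + c.a * c.ω * B) ≠ 0 ∧
    -(c.ω * B * (c.a * A + c.ω * B)) / (A * (A + c.a * c.ω * B)) = c.X (c.ω * B / A) := by
  have h1 : A + c.a * c.ω * B ≠ 0 := by
    intro h
    apply ht
    field_simp
    linear_combination h
  refine ⟨mul_ne_zero hA h1, ?_⟩
  unfold Cst.X
  have e1 : c.ω * B / A + c.a = (c.a * A + c.ω * B) / A := by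
    field_simp
    ring
  have e2 : c.a * (c.ω * B / A) + 1 = (A + c.a * c.ω * B) / A := by
    field_simp
    ring
  rw [e1, e2, neg_div, neg_div, neg_inj, div_mul_div_comm, div_div_div_eq,
    div_eq_div_iff (mul_ne_zero hA h1) (mul_ne_zero (mul_ne_zero hA hA) h1)]
  ring

lemma at_ne {A B : F} (hA : A ≠ 0) (h : A + c.a * c.ω * B ≠ 0) :
    c.a * (c.ω * B / A) + 1 ≠ 0 := by
  intro h1
  apply h
  field_simp at h1
  linear_combination h1

lemma κ_pow (A B : F) (n : ℕ) : κ c ((A / B) ^ n) = c.ω * B ^ n / A ^ n := by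
  unfold κ
  rw [div_pow, div_div_eq_mul_div]

lemma step_fin [IsAlgClosed F] (n : ℕ) (x : F) :
    (c.qq.eval x ≠ 0 ∧ c.pp.eval x / c.qq.eval x ∈ c.NS n) ↔ x ∈ c.NS (n + 1) := by
  rw [eval_pp, eval_qq]
  constructor
  · rintro ⟨hq, s, hs, hX⟩
    have hA : (x * (x + 2)) ^ 13 ≠ 0 := left_ne_zero_of_mul hq
    have hA' := right_ne_zero_of_mul hq
    have ht : c.a * (c.ω * (2 * x + 1) ^ 13 / (x * (x + 2)) ^ 13) + 1 ≠ 0 := at_ne c hA hA'
    rw [(f_eq c hA ht).2] at hX
    obtain ⟨s', hs', hts⟩ := X_kap c hs ht hX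
    have ht0 := (ax_kap c hs').1
    rw [← hts] at ht0
    have hB : 2 * x + 1 ≠ 0 := by
      intro h
      apply ht0
      rw [h]
      norm_num
    obtain ⟨w, hw, hwx⟩ := exists_X c x
    have hden : 1 - 2 * c.a * w ^ 3 ≠ 0 := by
      rw [den_X c hw, hwx]
      exact mul_ne_zero (pow_ne_zero 2 hw) hB
    have hP : c.P w = x * (x + 2) / (2 * x + 1) := by
      rw [← R1_X hden, hwx]
      rfl
    have hh : c.P w ^ 13 = c.kap (n + 1) s' := by
      rw [kap_succ, ← hts, ← κ_pow, κκ, hP]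
    refine ⟨c.kap (n + 1) w, ?_, ?_⟩
    · apply SS_succ_of
      rw [h_kap, hh, kap_kap]
      exact hs'
    · rw [kap_kap, hwx]
  · rintro ⟨v, hv, rfl⟩
    set w := c.kap (n + 1) v with hw
    have hs := SS_of_succ c hv
    have hax := ax_kap c hv
    rw [← hw] at hax
    have hPw : c.P w ^ 13 = c.kap (n + 1) (c.P v ^ 13) := by
      rw [hw, h_kap]
    have hPw2 : κ c (c.P w ^ 13) = c.kap n (c.P v ^ 13) := by
      rw [hPw, kap_succ, κκ]
    have hax2 := ax_kap c hs
    have hP0 : c.P w ≠ 0 := by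
      intro h
      apply hax2.1
      rw [← hPw2, h]
      simp [κ]
    have hden : 1 - 2 * c.a * w ^ 3 ≠ 0 := by
      intro h
      apply hP0
      unfold P
      rw [h, div_zero]
    have hP := R1_X hden
    unfold R1 at hP
    have hB : 2 * c.X w + 1 ≠ 0 := by
      intro h
      apply hden
      rw [den_X c hax.2.1, h, mul_zero]
    have hA0 : c.X w * (c.X w + 2) ≠ 0 := by
      intro h
      apply hP0
      rw [← hP, h, zero_div]
    have hA : (c.X w * (c.X w + 2)) ^ 13 ≠ 0 := pow_ne_zero 13 hA0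
    have ht : c.ω * (2 * c.X w + 1) ^ 13 / (c.X w * (c.X w + 2)) ^ 13 =
        c.kap n (c.P v ^ 13) := by
      rw [← hPw2, ← hP, κ_pow]
    have hat : c.a * (c.ω * (2 * c.X w + 1) ^ 13 / (c.X w * (c.X w + 2)) ^ 13) + 1 ≠ 0 := by
      rw [ht]
      exact hax2.2.1
    obtain ⟨h1, h2⟩ := f_eq c hA hat
    refine ⟨h1, c.P v ^ 13, hs, ?_⟩
    rw [h2, ht]

lemma ratMap_infty : ratMap c.pp c.qq OnePoint.infty = ((0 : F) : OnePoint F) := by
  unfold ratMap
  rw [natDegree_pq, OnePoint.elim_infty]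
  have h1 : c.qq.coeff 52 = 1 := by
    have := monic_qq c
    rw [Monic, leadingCoeff, natDegree_qq] at this
    exact this
  have h2 : c.pp.coeff 52 = 0 :=
    coeff_eq_zero_of_natDegree_lt (lt_of_le_of_lt (natDegree_pp c) (by norm_num))
  rw [h1, h2, if_neg one_ne_zero, div_one]

open Classical in
lemma ratMap_coe (x : F) : ratMap c.pp c.qq (x : OnePoint F) =
    if c.qq.eval x = 0 then OnePoint.infty else
      ((c.pp.eval x / c.qq.eval x : F) : OnePoint F) := by
  unfold ratMap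
  rw [OnePoint.elim_some]

lemma step_F [IsAlgClosed F] (n : ℕ) (β : OnePoint F) :
    (∃ y ∈ c.NS n, ratMap c.pp c.qq β = (y : OnePoint F)) ↔
      (∃ x ∈ c.NS (n + 1), β = (x : OnePoint F)) := by
  induction β using OnePoint.rec with
  | infty =>
    rw [ratMap_infty]
    constructor
    · rintro ⟨y, hy, h⟩
      rw [← OnePoint.coe_injective h] at hy
      exact absurd hy (zero_notMem c n)
    · rintro ⟨x, -, h⟩
      exact absurd h.symm (OnePoint.coe_ne_infty x)
  | coe x =>
    rw [ratMap_coe]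
    constructor
    · rintro ⟨y, hy, h⟩
      refine ⟨x, (step_fin c n x).1 ?_, rfl⟩
      by_cases hq : c.qq.eval x = 0
      · rw [if_pos hq] at h
        exact absurd h.symm (OnePoint.coe_ne_infty y)
      · rw [if_neg hq] at h
        refine ⟨hq, ?_⟩
        rw [OnePoint.coe_injective h]
        exact hy
    · rintro ⟨x', hx', h⟩
      obtain ⟨h1, h2⟩ := (step_fin c n x').2 hx'
      rw [← OnePoint.coe_injective h] at h1 h2
      refine ⟨_, h2, ?_⟩
      rw [if_neg h1]

lemma NS_zero : c.NS 0 = {1} := by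
  have hk : ∀ s, c.kap 0 s = s := fun s => by unfold kap; rw [if_pos Even.zero]
  have h1 : c.X c.m = 1 := by
    have := am_ne c
    unfold Cst.X
    rw [div_eq_iff this]
    linear_combination (-1) * m_eq c
  have h2 : c.X c.m⁻¹ = 1 := by
    rw [X_inv (m_ne c), h1, inv_one]
  ext x
  constructor
  · rintro ⟨v, hv, rfl⟩
    rw [hk]
    rcases hv with h | h
    · have : v = c.m := h
      rw [this, h1]
      exact rfl
    · have h3 : v⁻¹ = c.m := h
      have h4 : v = c.m⁻¹ := by rw [← h3, inv_inv]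
      rw [h4, h2]
      exact rfl
  · intro h
    have h' : x = 1 := h
    rw [h']
    exact ⟨c.m, Or.inl rfl, by rw [hk, h1]⟩

end field

end D1

section final

variable {K : Type*} [Field K] [CharZero K] (c0 : Cst K)

lemma D1.map_pp {F : Type*} [Field F] (φ : K →+* F) : c0.pp.map φ = (c0.map φ).pp := by
  have h2 : φ 2 = 2 := map_ofNat φ 2
  simp [pp, pA, pB, Cst.map, h2]

lemma D1.map_qq {F : Type*} [Field F] (φ : K →+* F) : c0.qq.map φ = (c0.map φ).qq := by
  have h2 : φ 2 = 2 := map_ofNat φ 2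
  simp [qq, pA, pB, Cst.map, h2]

/-- row D1: one step; `f (X w) = X (κ (h w))`, `f ∞ = 0`, `X⁻¹(N_n) = κ^n S_n` -/
theorem step_NS (n : ℕ) (β : OnePoint (AlgebraicClosure K)) :
    (∃ y ∈ (c0.map (algebraMap K (AlgebraicClosure K))).NS n,
      ratMap (c0.pp.map (algebraMap K (AlgebraicClosure K)))
        (c0.qq.map (algebraMap K (AlgebraicClosure K))) β =
        ((y : AlgebraicClosure K) : OnePoint (AlgebraicClosure K))) ↔
    (∃ x ∈ (c0.map (algebraMap K (AlgebraicClosure K))).NS (n + 1),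
      β = ((x : AlgebraicClosure K) : OnePoint (AlgebraicClosure K))) := by
  have : CharZero (AlgebraicClosure K) := charZero_of_injective_algebraMap
    (algebraMap K (AlgebraicClosure K)).injective
  rw [D1.map_pp, D1.map_qq]
  exact D1.step_F _ n β

/-- row D1 -/
theorem preimages_eq (n : ℕ) (β : OnePoint (AlgebraicClosure K)) :
    β ∈ preimages c0.pp c0.qq ((1 : K) : OnePoint K) n ↔
      ∃ x ∈ (c0.map (algebraMap K (AlgebraicClosure K))).NS n,
        β = ((x : AlgebraicClosure K) : OnePoint (AlgebraicClosure K)) := by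
  have : CharZero (AlgebraicClosure K) := charZero_of_injective_algebraMap
    (algebraMap K (AlgebraicClosure K)).injective
  change (ratMap (c0.pp.map (algebraMap K (AlgebraicClosure K)))
    (c0.qq.map (algebraMap K (AlgebraicClosure K))))^[n] β =
      OnePoint.map (algebraMap K (AlgebraicClosure K)) ((1 : K) : OnePoint K) ↔ _
  induction n generalizing β with
  | zero =>
    rw [Function.iterate_zero, id, D1.NS_zero]
    constructor
    · intro h
      refine ⟨1, rfl, ?_⟩
      rw [h]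
      simp
    · rintro ⟨x, hx, h⟩
      have hx' : x = 1 := hx
      rw [h, hx']
      simp
  | succ n ih =>
    rw [Function.iterate_succ_apply, ← step_NS]
    exact ih _

/-- row D1 -/
theorem level_eq (n : ℕ) : levelField c0.pp c0.qq ((1 : K) : OnePoint K) n =
    IntermediateField.adjoin K ((c0.map (algebraMap K (AlgebraicClosure K))).NS n) := by
  unfold levelField
  congr 1
  ext x
  change ((x : AlgebraicClosure K) : OnePoint (AlgebraicClosure K)) ∈
    preimages c0.pp c0.qq ((1 : K) : OnePoint K) n ↔ _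
  rw [preimages_eq]
  constructor
  · rintro ⟨y, hy, h⟩
    rw [OnePoint.coe_injective h]
    exact hy
  · intro h
    exact ⟨x, h, rfl⟩

end final

end Pool.Agent.Arb
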